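import Pool.Graph.R_seed8.Results.MP_155d71_an.SchurCriterion

/-!
# Weakly compact sets are fragmented by the norm (Namioka)
-/

set_option autoImplicit false

open Filter Topology Set
open Pool.Agent.Results.MP_155d71_an.SeparateActionFails

namespace Pool.Agent.H57.Rev

universe u

variable {E : Type u} [NormedAddCommGroup E] [NormedSpace ℝ E]

lemma isClosed_toW {s : Set E} (hs : Convex ℝ s) (hc : IsClosed s) :
    IsClosed (toW '' s : Set (Weak E)) := by
  have h1 := hs.toWeakSpace_closure ℝ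
  rw [hc.closure_eq] at h1
  have h2 : (toW '' s : Set (Weak E)) = closure (toWeakSpace ℝ E '' s : Set (WeakSpace ℝ E)) := h1
  rw [h2]
  exact isClosed_closure

/-- the points at distance at most `ε / 4` from the span of `F` -/
def Near (ε : ℝ) (F : Finset E) : Set (Weak E) :=
  toW '' Metric.cthickening (ε / 4) (Submodule.span ℝ (F : Set E) : Set E)

lemma isClosed_near (ε : ℝ) (F : Finset E) : IsClosed (Near ε F) :=
  isClosed_toW ((Submodule.convex _).cthickening _) Metric.isClosed_cthickening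

lemma ndist_toW (x y : E) : ndist (toW x : Weak E) (toW y) = dist x y := by
  simp [ndist, dist_eq_norm]

lemma step {K : Set (Weak E)} (hK : IsCompact K) {ε : ℝ} (hε : 0 < ε)
    (H : ∀ V : Set (Weak E), IsOpen V → (V ∩ K).Nonempty →
      ∃ x ∈ V ∩ K, ∃ y ∈ V ∩ K, ε < ndist x y)
    (F : Finset E) {V : Set (Weak E)} (hV : IsOpen V) (hne : (V ∩ K).Nonempty) :
    ∃ x ∈ V ∩ K, x ∉ Near ε F := by
  by_contra hcon
  push Not at hcon
  set L : Set E := (Submodule.span ℝ (F : Set E) : Set E) with hL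
  have hsep : TopologicalSpace.IsSeparable L :=
    (F.countable_toSet.isSeparable).span (R := ℝ)
  obtain ⟨c, hc, hLc⟩ := hsep
  have hcne : c.Nonempty := by
    have h0 : (0 : E) ∈ L := Submodule.zero_mem _
    exact closure_nonempty_iff.1 ⟨0, hLc h0⟩
  obtain ⟨d, hd⟩ := hc.exists_eq_range hcne
  have : CompactSpace K := isCompact_iff_compactSpace.mp hK
  let f : Option ℕ → Set K := fun o => match o with
    | none => {w : K | (w : Weak E) ∈ Vᶜ}
    | some i => {w : K | (w : Weak E) ∈ toW '' Metric.closedBall (d i) (ε / 2)}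
  have hf : ∀ o, IsClosed (f o) := by
    rintro (_ | i)
    · exact hV.isClosed_compl.preimage continuous_subtype_val
    · exact (isClosed_toW (convex_closedBall _ _) Metric.isClosed_closedBall).preimage
        continuous_subtype_val
  have hU : ⋃ o, f o = univ := by
    refine eq_univ_of_forall fun w => ?_
    rw [mem_iUnion]
    by_cases hw : (w : Weak E) ∈ V
    · obtain ⟨x, hx, hxw⟩ := hcon w ⟨hw, w.2⟩
      have h1 : x ∈ Metric.thickening (ε / 3) L :=
        Metric.cthickening_subset_thickening' (by positivity) (by linarith) _ hx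
      obtain ⟨z, hz, hxz⟩ := Metric.mem_thickening_iff.1 h1
      obtain ⟨y, hy, hzy⟩ := Metric.mem_closure_iff.1 (hLc hz) (ε / 6) (by positivity)
      rw [hd] at hy
      obtain ⟨i, rfl⟩ := hy
      refine ⟨some i, x, ?_, hxw⟩
      rw [Metric.mem_closedBall]
      have := dist_triangle x z (d i)
      linarith
    · exact ⟨none, hw⟩
  have hdense := dense_iUnion_interior_of_closed hf hU
  obtain ⟨x₀, hx₀V, hx₀K⟩ := hne
  obtain ⟨w, hwV, hw⟩ := hdense.inter_open_nonempty (Subtype.val ⁻¹' V)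
    (hV.preimage continuous_subtype_val) ⟨⟨x₀, hx₀K⟩, hx₀V⟩
  obtain ⟨o, ho⟩ := mem_iUnion.1 hw
  rcases o with _ | i
  · exact (interior_subset ho : w ∈ f none) hwV
  · obtain ⟨V', hV', hVi⟩ := isOpen_induced_iff.1 (isOpen_interior (s := f (some i)))
    have hwV' : (w : Weak E) ∈ V' := by
      have : w ∈ Subtype.val ⁻¹' V' := by rw [hVi]; exact ho
      exact this
    obtain ⟨x, hx, y, hy, hxy⟩ := H V' hV' ⟨w, hwV', w.2⟩
    have key : ∀ x ∈ V' ∩ K, x ∈ (toW '' Metric.closedBall (d i) (ε / 2) : Set (Weak E)) := by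
      intro x hx
      have h1 : (⟨x, hx.2⟩ : K) ∈ interior (f (some i)) := by
        rw [← hVi]; exact hx.1
      exact (interior_subset h1 : (⟨x, hx.2⟩ : K) ∈ f (some i))
    obtain ⟨x', hx', rfl⟩ := key x hx
    obtain ⟨y', hy', rfl⟩ := key y hy
    rw [ndist_toW] at hxy
    have := dist_triangle_right x' y' (d i)
    rw [Metric.mem_closedBall] at hx' hy'
    linarith

/-- Weakly compact sets are fragmented by the norm. -/
theorem fragment {K : Set (Weak E)} (hK : IsCompact K) (hne : K.Nonempty) {ε : ℝ} (hε : 0 < ε) :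
    ∃ V : Set (Weak E), IsOpen V ∧ (V ∩ K).Nonempty ∧
      ∀ x ∈ V ∩ K, ∀ y ∈ V ∩ K, ndist x y ≤ ε := by
  by_contra hcon
  have H : ∀ V : Set (Weak E), IsOpen V → (V ∩ K).Nonempty →
      ∃ x ∈ V ∩ K, ∃ y ∈ V ∩ K, ε < ndist x y := by
    intro V hV hVK
    by_contra h
    push Not at h
    exact hcon ⟨V, hV, hVK, h⟩
  classical
  let Q : Type u := {p : Finset E × Set (Weak E) // IsOpen p.2 ∧ (p.2 ∩ K).Nonempty}
  have hnext : ∀ q : Q, ∃ (q' : Q) (x : Weak E), x ∈ K ∧ x ∈ q'.1.2 ∧ toW.symm x ∈ q'.1.1 ∧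
      q.1.1 ⊆ q'.1.1 ∧ closure q'.1.2 ⊆ q.1.2 ∩ (Near ε q.1.1)ᶜ := by
    rintro ⟨⟨F, V⟩, hV, hVK⟩
    obtain ⟨x, ⟨hxV, hxK⟩, hxF⟩ := step hK hε H F hV hVK
    have hreg : RegularSpace (Weak E) := inferInstanceAs (RegularSpace (WeakSpace ℝ E))
    have hO : V ∩ (Near ε F)ᶜ ∈ 𝓝 x :=
      (hV.inter (isClosed_near ε F).isOpen_compl).mem_nhds ⟨hxV, hxF⟩
    obtain ⟨N, hN, hNc, hNO⟩ := exists_mem_nhds_isClosed_subset hO
    refine ⟨⟨⟨insert (toW.symm x) F, interior N⟩, isOpen_interior,
      ⟨x, mem_interior_iff_mem_nhds.2 hN, hxK⟩⟩, x, hxK, mem_interior_iff_mem_nhds.2 hN,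
      Finset.mem_insert_self _ _, Finset.subset_insert _ _, ?_⟩
    exact (closure_minimal interior_subset hNc).trans hNO
  choose next x hxK hxV hxF hFF hcl using hnext
  obtain ⟨x₀, hx₀⟩ := hne
  let q0 : Q := ⟨⟨∅, univ⟩, isOpen_univ, ⟨x₀, mem_univ _, hx₀⟩⟩
  let q : ℕ → Q := fun n => Nat.rec q0 (fun _ q => next q) n
  have hq : ∀ n, q (n + 1) = next (q n) := fun n => rfl
  let y : ℕ → Weak E := fun n => x (q n)
  have hVanti : ∀ n m, n ≤ m → (q m).1.2 ⊆ (q n).1.2 := by
    intro n m hnm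
    induction m, hnm using Nat.le_induction with
    | base => exact Subset.rfl
    | succ m hm ih =>
      refine Subset.trans ?_ ih
      rw [hq]
      exact subset_closure.trans ((hcl (q m)).trans inter_subset_left)
  have hFmono : Monotone fun n => (q n).1.1 := by
    refine monotone_nat_of_le_succ fun n => ?_
    rw [hq]
    exact hFF (q n)
  have hyK : ∀ n, y n ∈ K := fun n => hxK (q n)
  obtain ⟨w, hwK, hw⟩ : ∃ w ∈ K, ClusterPt w (map y atTop) :=
    hK (le_principal_iff.2 (mem_map.2 (univ_mem' hyK)))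
  have hwcl : ∀ s : Set (Weak E), (∀ᶠ n in atTop, y n ∈ s) → w ∈ closure s := fun s hs =>
    mem_closure_iff_clusterPt.2 (hw.mono (le_principal_iff.2 (mem_map.2 hs)))
  -- `w` is far from all the spans
  have hfar : ∀ n, w ∉ Near ε (q n).1.1 := by
    intro n
    have h1 : w ∈ closure (q (n + 1)).1.2 := hwcl _ (by
      filter_upwards [eventually_ge_atTop n] with m hm
      have h2 : y m ∈ (q (m + 1)).1.2 := by rw [hq]; exact hxV (q m)
      exact hVanti (n + 1) (m + 1) (by omega) h2)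
    rw [hq] at h1
    exact (hcl (q n) h1).2
  -- `w` is in the closed span of the sequence
  set T : Set E := ⋃ n, ((q n).1.1 : Set E) with hT
  have hclosed : IsClosed (toW '' closure (Submodule.span ℝ T : Set E) : Set (Weak E)) :=
    isClosed_toW (Submodule.convex _).closure isClosed_closure
  have hwT : w ∈ (toW '' closure (Submodule.span ℝ T : Set E) : Set (Weak E)) := by
    rw [← hclosed.closure_eq]
    refine hwcl _ (Eventually.of_forall fun n => ?_)
    refine ⟨toW.symm (y n), subset_closure (Submodule.subset_span ?_), by simp⟩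
    rw [hT, mem_iUnion]
    refine ⟨n + 1, ?_⟩
    rw [hq]
    exact hxF (q n)
  obtain ⟨w', hw', rfl⟩ := hwT
  obtain ⟨z, hz, hwz⟩ := Metric.mem_closure_iff.1 hw' (ε / 4) (by positivity)
  have hz' : z ∈ ⨆ n, Submodule.span ℝ ((q n).1.1 : Set E) := by
    rw [← Submodule.span_iUnion]
    exact hz
  rw [Submodule.mem_iSup_of_directed] at hz'
  · obtain ⟨n, hn⟩ := hz'
    refine hfar n ⟨w', ?_, rfl⟩
    exact Metric.mem_cthickening_of_dist_le w' z _ _ hn hwz.le
  · intro i j
    refine ⟨max i j, Submodule.span_mono ?_, Submodule.span_mono ?_⟩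
    · exact_mod_cast hFmono (le_max_left i j)
    · exact_mod_cast hFmono (le_max_right i j)

end Pool.Agent.H57.Rev
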