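import Mathlib

/-!
# Minimal sets of left reversible semigroups of maps of a compact space
-/

set_option autoImplicit false

open Filter Topology Set

namespace Pool.Agent.H57.Rev

/-- `S` is (topologically) left reversible: any two closed right ideals meet. -/
def LeftRev (S : Type*) [Semigroup S] [TopologicalSpace S] : Prop :=
  ∀ a b : S, (closure (range fun c : S => a * c) ∩ closure (range fun c : S => b * c)).Nonempty

/-- `S` is right reversible: any two left ideals meet. -/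
def RightRev (S : Type*) [Semigroup S] : Prop := ∀ a b : S, ∃ c d : S, c * a = d * b

section Sep

variable {X : Type*} (ρ : X → X → ℝ)

/-- the finite set `P` is `ε`-separated -/
def Sep (ε : ℝ) (P : Finset X) : Prop := ∀ x ∈ P, ∀ y ∈ P, x ≠ y → ε < ρ x y

/-- the `ε`-separated finite subsets of `W` have bounded cardinality -/
def Fin' (ε : ℝ) (W : Set X) : Prop := ∃ n : ℕ, ∀ P : Finset X, (P : Set X) ⊆ W → Sep ρ ε P → P.card ≤ n

variable {ρ} {ε : ℝ}

lemma Fin'.mono {W W' : Set X} (h : Fin' ρ ε W) (hW : W' ⊆ W) : Fin' ρ ε W' := by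
  obtain ⟨n, hn⟩ := h
  exact ⟨n, fun P hP hs => hn P (hP.trans hW) hs⟩

lemma Fin'.union {W W' : Set X} (h : Fin' ρ ε W) (h' : Fin' ρ ε W') : Fin' ρ ε (W ∪ W') := by
  classical
  obtain ⟨n, hn⟩ := h
  obtain ⟨m, hm⟩ := h'
  refine ⟨n + m, fun P hP hs => ?_⟩
  have h1 : P ⊆ P.filter (· ∈ W) ∪ P.filter (· ∈ W') := by
    intro x hx
    rcases hP hx with h | h
    · exact Finset.mem_union_left _ (Finset.mem_filter.2 ⟨hx, h⟩)
    · exact Finset.mem_union_right _ (Finset.mem_filter.2 ⟨hx, h⟩)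
  have h2 := hn (P.filter (· ∈ W)) (fun x hx => (Finset.mem_filter.1 hx).2)
    (fun x hx y hy hxy => hs x (Finset.mem_filter.1 hx).1 y (Finset.mem_filter.1 hy).1 hxy)
  have h3 := hm (P.filter (· ∈ W')) (fun x hx => (Finset.mem_filter.1 hx).2)
    (fun x hx y hy hxy => hs x (Finset.mem_filter.1 hx).1 y (Finset.mem_filter.1 hy).1 hxy)
  exact (Finset.card_le_card h1).trans ((Finset.card_union_le _ _).trans (Nat.add_le_add h2 h3))

lemma fin'_of_le {W : Set X} (h : ∀ x ∈ W, ∀ y ∈ W, ρ x y ≤ ε) : Fin' ρ ε W := by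
  refine ⟨1, fun P hP hs => ?_⟩
  rw [Finset.card_le_one]
  intro x hx y hy
  by_contra hxy
  exact absurd (h x (hP hx) y (hP hy)) (not_le.2 (hs x hx y hy hxy))

lemma card_le_of_image {T : X → X} (hT : ∀ x y, ρ (T x) (T y) ≤ ρ x y) {W : Set X} {n : ℕ}
    (hn : ∀ P : Finset X, (P : Set X) ⊆ W → Sep ρ ε P → P.card ≤ n) (P : Finset X)
    (hP : (P : Set X) ⊆ T '' W) (hs : Sep ρ ε P) : P.card ≤ n := by
  classical
  have h1 : ∀ x : X, ∃ y : X, x ∈ P → y ∈ W ∧ T y = x := by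
    intro x
    by_cases hx : x ∈ P
    · obtain ⟨y, hy, hxy⟩ := hP hx
      exact ⟨y, fun _ => ⟨hy, hxy⟩⟩
    · exact ⟨x, fun h => (hx h).elim⟩
  choose g hg using h1
  have hinj : Set.InjOn g P := by
    intro x hx y hy hxy
    rw [← (hg x hx).2, ← (hg y hy).2, hxy]
  rw [← Finset.card_image_of_injOn hinj]
  apply hn
  · intro z hz
    obtain ⟨x, hx, rfl⟩ := Finset.mem_image.1 (Finset.mem_coe.1 hz)
    exact (hg x hx).1
  · intro z hz w hw hzw
    obtain ⟨x, hx, rfl⟩ := Finset.mem_image.1 hz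
    obtain ⟨y, hy, rfl⟩ := Finset.mem_image.1 hw
    have hxy : x ≠ y := fun h => hzw (by rw [h])
    have h2 := hs x hx y hy hxy
    have h3 := hT (g x) (g y)
    rw [(hg x hx).2, (hg y hy).2] at h3
    linarith

lemma Fin'.image {T : X → X} (hT : ∀ x y, ρ (T x) (T y) ≤ ρ x y) {W : Set X}
    (h : Fin' ρ ε W) : Fin' ρ ε (T '' W) := by
  obtain ⟨n, hn⟩ := h
  exact ⟨n, fun P hP hs => card_le_of_image hT hn P hP hs⟩

/-- a set with bounded separated subsets has a finite net -/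
lemma Fin'.net (hsymm : ∀ x y, ρ x y = ρ y x) (h0 : ∀ x, ρ x x = 0) (hε : 0 < ε) {W : Set X}
    (h : Fin' ρ ε W) : ∃ P : Finset X, (P : Set X) ⊆ W ∧ W ⊆ ⋃ p ∈ P, {y | ρ p y ≤ ε} := by
  classical
  obtain ⟨n, hn⟩ := h
  have hex : ∃ k, ∃ P : Finset X, (P : Set X) ⊆ W ∧ Sep ρ ε P ∧ P.card + k = n :=
    ⟨n, ∅, by simp, by intro x hx; simp at hx, by simp⟩
  obtain ⟨P, hPW, hPs, hPk⟩ := Nat.find_spec hex
  refine ⟨P, hPW, fun y hy => ?_⟩
  by_contra hcon
  simp only [mem_iUnion, mem_ofPred_eq, not_exists, not_le] at hcon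
  have hyP : y ∉ P := fun h => by
    have := hcon y h
    rw [h0] at this
    linarith
  have hsep : Sep ρ ε (insert y P) := by
    intro x hx z hz hxz
    rcases Finset.mem_insert.1 hx with rfl | hx'
    · rcases Finset.mem_insert.1 hz with rfl | hz'
      · exact (hxz rfl).elim
      · rw [hsymm]; exact hcon z hz'
    · rcases Finset.mem_insert.1 hz with rfl | hz'
      · exact hcon x hx'
      · exact hPs x hx' z hz' hxz
  have hsub : ((insert y P : Finset X) : Set X) ⊆ W := by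
    rw [Finset.coe_insert]
    exact insert_subset hy hPW
  have hcard := hn _ hsub hsep
  rw [Finset.card_insert_of_notMem hyP] at hcard
  have hk : 0 < Nat.find hex := by omega
  exact Nat.find_min hex (Nat.pred_lt hk.ne') ⟨insert y P, hsub, hsep, by
    rw [Finset.card_insert_of_notMem hyP, Nat.pred_eq_sub_one]; omega⟩

end Sep

variable {S : Type*} {X : Type*} [TopologicalSpace X]

/-- `K` is invariant under all the maps `A s` -/
def Inv (A : S → X → X) (K : Set X) : Prop := ∀ s, ∀ x ∈ K, A s x ∈ K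

lemma exists_minimal [CompactSpace X] [Nonempty X] (A : S → X → X) :
    ∃ K : Set X, IsClosed K ∧ K.Nonempty ∧ Inv A K ∧
      ∀ L ⊆ K, IsClosed L → L.Nonempty → Inv A L → L = K := by
  obtain ⟨K, -, hK⟩ := zorn_superset_nonempty
    {K : Set X | IsClosed K ∧ K.Nonempty ∧ Inv A K} (by
      intro c hc hchain hcne
      refine ⟨⋂₀ c, ⟨isClosed_sInter fun s hs => (hc hs).1, ?_, ?_⟩, fun s hs =>
        sInter_subset_of_mem hs⟩
      · have : Nonempty c := hcne.to_subtype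
        exact IsCompact.nonempty_sInter_of_directed_nonempty_isCompact_isClosed
          (fun a ha b hb => by
            rcases hchain.total ha hb with h | h
            · exact ⟨a, ha, Subset.rfl, h⟩
            · exact ⟨b, hb, h, Subset.rfl⟩) (fun s hs => (hc hs).2.1)
          (fun s hs => (hc hs).1.isCompact)
          (fun s hs => (hc hs).1)
      · intro s x hx
        rw [mem_sInter] at hx ⊢
        exact fun t ht => (hc ht).2.2 s x (hx t ht))
    univ ⟨isClosed_univ, univ_nonempty, fun _ _ _ => mem_univ _⟩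
  refine ⟨K, hK.1.1, hK.1.2.1, hK.1.2.2, fun L hL h1 h2 h3 => ?_⟩
  exact Subset.antisymm hL (hK.2 ⟨h1, h2, h3⟩ hL)

variable [CompactSpace X] [T2Space X]

/-- A minimal closed set `L` with `L ⊆ A a '' L` for all `a`. -/
lemma exists_core {A : S → X → X} (hc : ∀ s, Continuous (A s)) {K : Set X} (hK : IsClosed K)
    (hne : K.Nonempty) (hKA : ∀ a, K ⊆ A a '' K) :
    ∃ L ⊆ K, IsClosed L ∧ L.Nonempty ∧ (∀ a, L ⊆ A a '' L) ∧
      ∀ M ⊆ L, IsClosed M → M.Nonempty → (∀ a, M ⊆ A a '' M) → M = L := by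
  obtain ⟨L, hLK, hL⟩ := zorn_superset_nonempty
    {L : Set X | IsClosed L ∧ L.Nonempty ∧ ∀ a, L ⊆ A a '' L} (by
      intro c hc' hchain hcne
      have hcn : Nonempty c := hcne.to_subtype
      refine ⟨⋂₀ c, ⟨isClosed_sInter fun s hs => (hc' hs).1, ?_, ?_⟩, fun s hs =>
        sInter_subset_of_mem hs⟩
      · exact IsCompact.nonempty_sInter_of_directed_nonempty_isCompact_isClosed
          (fun a ha b hb => by
            rcases hchain.total ha hb with h | h
            · exact ⟨a, ha, Subset.rfl, h⟩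
            · exact ⟨b, hb, h, Subset.rfl⟩) (fun s hs => (hc' hs).2.1)
          (fun s hs => (hc' hs).1.isCompact)
          (fun s hs => (hc' hs).1)
      · intro a y hy
        rw [mem_sInter] at hy
        have hZc : ∀ t ∈ (fun u : Set X => u ∩ A a ⁻¹' {y}) '' c, IsClosed t := by
          rintro _ ⟨u, hu, rfl⟩
          exact (hc' hu).1.inter (isClosed_singleton.preimage (hc a))
        have hne2 : (⋂₀ ((fun u : Set X => u ∩ A a ⁻¹' {y}) '' c)).Nonempty := by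
          have : Nonempty ((fun u : Set X => u ∩ A a ⁻¹' {y}) '' c) := (hcne.image _).to_subtype
          refine IsCompact.nonempty_sInter_of_directed_nonempty_isCompact_isClosed ?_ ?_
            (fun s hs => (hZc s hs).isCompact) hZc
          · rintro _ ⟨u, hu, rfl⟩ _ ⟨v, hv, rfl⟩
            rcases hchain.total hu hv with h | h
            · exact ⟨_, ⟨u, hu, rfl⟩, Subset.rfl, inter_subset_inter_left _ h⟩
            · exact ⟨_, ⟨v, hv, rfl⟩, inter_subset_inter_left _ h, Subset.rfl⟩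
          · rintro _ ⟨u, hu, rfl⟩
            obtain ⟨x, hx, hxy⟩ := (hc' hu).2.2 a (hy u hu)
            exact ⟨x, hx, hxy⟩
        obtain ⟨x, hx⟩ := hne2
        rw [mem_sInter] at hx
        obtain ⟨u₀, hu₀⟩ := hcne
        refine ⟨x, ?_, (hx _ ⟨u₀, hu₀, rfl⟩).2⟩
        rw [mem_sInter]
        exact fun u hu => (hx _ ⟨u, hu, rfl⟩).1)
    K ⟨hK, hne, hKA⟩
  refine ⟨L, hLK, hL.1.1, hL.1.2.1, hL.1.2.2, fun M hM h1 h2 h3 => ?_⟩
  exact Subset.antisymm hM (hL.2 ⟨h1, h2, h3⟩ hM)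

omit [CompactSpace X] [T2Space X] in
/-- Local finiteness implies finiteness on compact sets. -/
lemma fin'_of_local {ρ : X → X → ℝ} {ε : ℝ} {L Z : Set X} (hZ : IsCompact Z)
    (h : ∀ x ∈ Z, ∃ U, IsOpen U ∧ x ∈ U ∧ Fin' ρ ε (U ∩ L)) :
    ∃ W, IsOpen W ∧ Z ⊆ W ∧ Fin' ρ ε (W ∩ L) := by
  refine hZ.induction_on (p := fun s => ∃ W, IsOpen W ∧ s ⊆ W ∧ Fin' ρ ε (W ∩ L)) ?_ ?_ ?_ ?_
  · exact ⟨∅, isOpen_empty, Subset.rfl, 0, fun P hP _ => by
      rw [empty_inter, subset_empty_iff, Finset.coe_eq_empty] at hP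
      simp [hP]⟩
  · rintro s t hst ⟨W, hW, htW, hf⟩
    exact ⟨W, hW, hst.trans htW, hf⟩
  · rintro s t ⟨W, hW, hsW, hf⟩ ⟨W', hW', htW', hf'⟩
    refine ⟨W ∪ W', hW.union hW', union_subset_union hsW htW', ?_⟩
    rw [union_inter_distrib_right]
    exact hf.union hf'
  · intro x hx
    obtain ⟨U, hU, hxU, hf⟩ := h x hx
    exact ⟨U, mem_nhdsWithin_of_mem_nhds (hU.mem_nhds hxU), U, hU, Subset.rfl, hf⟩

/-- The core is totally bounded. -/
lemma fin'_core {A : S → X → X} (hc : ∀ s, Continuous (A s)) {ρ : X → X → ℝ}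
    (hρ : ∀ s x y, ρ (A s x) (A s y) ≤ ρ x y) {ε : ℝ}
    (hfrag : ∀ L : Set X, IsClosed L → L.Nonempty → ∃ U, IsOpen U ∧ (U ∩ L).Nonempty ∧
      ∀ x ∈ U ∩ L, ∀ y ∈ U ∩ L, ρ x y ≤ ε)
    {L : Set X} (hL : IsClosed L) (hne : L.Nonempty) (hLA : ∀ a, L ⊆ A a '' L)
    (hmin : ∀ M ⊆ L, IsClosed M → M.Nonempty → (∀ a, M ⊆ A a '' M) → M = L) : Fin' ρ ε L := by
  set D : Set X := {x ∈ L | ∀ U, IsOpen U → x ∈ U → ¬ Fin' ρ ε (U ∩ L)} with hD
  have hDL : D ⊆ L := fun x hx => hx.1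
  have hDc : IsClosed D := by
    rw [← isOpen_compl_iff, isOpen_iff_forall_mem_open]
    intro x hx
    by_cases hxL : x ∈ L
    · have : ∃ U, IsOpen U ∧ x ∈ U ∧ Fin' ρ ε (U ∩ L) := by
        by_contra hcon
        push Not at hcon
        exact hx ⟨hxL, hcon⟩
      obtain ⟨U, hU, hxU, hf⟩ := this
      exact ⟨U, fun y hy hyD => hyD.2 U hU hy hf, hU, hxU⟩
    · exact ⟨Lᶜ, fun y hy hyD => hy hyD.1, hL.isOpen_compl, hxL⟩
  have hDA : ∀ a, D ⊆ A a '' D := by
    intro a y hy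
    by_contra hcon
    have hZ : IsCompact (L ∩ A a ⁻¹' {y}) :=
      (hL.inter (isClosed_singleton.preimage (hc a))).isCompact
    obtain ⟨W, hW, hZW, hf⟩ := fin'_of_local (ρ := ρ) (ε := ε) (L := L) hZ (by
      rintro x ⟨hxL, hxy⟩
      by_contra hcon2
      push Not at hcon2
      exact hcon ⟨x, ⟨hxL, hcon2⟩, hxy⟩)
    have hcl : IsClosed (A a '' (L \ W)) := ((hL.sdiff hW).isCompact.image (hc a)).isClosed
    refine hy.2 (A a '' (L \ W))ᶜ hcl.isOpen_compl ?_ ((hf.image (hρ a)).mono ?_)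
    · rintro ⟨x, ⟨hxL, hxW⟩, hxy⟩
      exact hxW (hZW ⟨hxL, hxy⟩)
    · rintro z ⟨hz1, hz2⟩
      obtain ⟨x, hx, rfl⟩ := hLA a hz2
      refine ⟨x, ⟨?_, hx⟩, rfl⟩
      by_contra hxW
      exact hz1 ⟨x, ⟨hx, hxW⟩, rfl⟩
  have hDe : D = ∅ := by
    by_contra hcon
    have hDne : D.Nonempty := nonempty_iff_ne_empty.2 hcon
    have h1 := hmin D hDL hDc hDne hDA
    obtain ⟨U, hU, ⟨x, hxU, hxL⟩, hUd⟩ := hfrag L hL hne
    have hxD : x ∈ D := by rw [h1]; exact hxL
    exact hxD.2 U hU hxU (fin'_of_le hUd)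
  obtain ⟨W, -, hLW, hf⟩ := fin'_of_local (ρ := ρ) (ε := ε) (L := L) hL.isCompact (by
    intro x hx
    by_contra hcon
    push Not at hcon
    have : x ∈ D := ⟨hx, hcon⟩
    rw [hDe] at this
    exact this)
  exact hf.mono fun x hx => ⟨hLW hx, hx⟩

variable [Semigroup S] [TopologicalSpace S] {A : S → X → X} {K : Set X}

/-- The closed right ideals of `S`. -/
def Ideals (S : Type*) [Semigroup S] [TopologicalSpace S] : Type _ :=
  {R : Set S // IsClosed R ∧ R.Nonempty ∧ ∀ r ∈ R, ∀ s, r * s ∈ R}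

lemma ideals_inter (hS : LeftRev S) (R R' : Ideals S) :
    ∃ R'' : Ideals S, R''.1 ⊆ R.1 ∧ R''.1 ⊆ R'.1 := by
  obtain ⟨R, hR, ⟨a, ha⟩, hRr⟩ := R
  obtain ⟨R', hR', ⟨b, hb⟩, hRr'⟩ := R'
  obtain ⟨t, hta, htb⟩ := hS a b
  refine ⟨⟨R ∩ R', hR.inter hR', ⟨t, ?_, ?_⟩, fun r hr s => ⟨hRr r hr.1 s, hRr' r hr.2 s⟩⟩,
    inter_subset_left, inter_subset_right⟩
  · exact closure_minimal (by rintro _ ⟨c, rfl⟩; exact hRr a ha c) hR hta
  · exact closure_minimal (by rintro _ ⟨c, rfl⟩; exact hRr' b hb c) hR' htb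

/-- There is a closed nonempty set `L ⊆ K` with `L ⊆ A a '' L` for all `a`. -/
lemma exists_back [Nonempty S] (hright : ∀ t : S, Continuous fun s : S => s * t)
    (hmul : ∀ s t x, A (s * t) x = A s (A t x)) (hc : ∀ s, Continuous (A s))
    (horb : ∀ x, Continuous fun s => A s x)
    (hS : LeftRev S) (hK : IsClosed K) (hne : K.Nonempty) (hinv : Inv A K) :
    ∃ L ⊆ K, IsClosed L ∧ L.Nonempty ∧ ∀ a, L ⊆ A a '' L := by
  obtain ⟨x, hx⟩ := hne
  let f : Ideals S → Set X := fun R => closure ((fun s => A s x) '' R.1)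
  have hfc : ∀ R, IsClosed (f R) := fun R => isClosed_closure
  have hfn : ∀ R, (f R).Nonempty := fun R => (R.2.2.1.image _).closure
  have hfK : ∀ R, f R ⊆ K := fun R => closure_minimal (by
    rintro _ ⟨s, -, rfl⟩; exact hinv s x hx) hK
  have hfd : Directed (· ⊇ ·) f := by
    intro R R'
    obtain ⟨R'', h1, h2⟩ := ideals_inter hS R R'
    exact ⟨R'', closure_mono (image_mono h1), closure_mono (image_mono h2)⟩
  have hI : Nonempty (Ideals S) :=
    ⟨⟨univ, isClosed_univ, univ_nonempty, fun _ _ _ => mem_univ _⟩⟩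
  -- the ideal `closure (a R)`
  have hshift : ∀ (a : S) (R : Ideals S), ∃ R' : Ideals S, f R' ⊆ A a '' f R := by
    intro a R
    refine ⟨⟨closure ((fun s => a * s) '' R.1), isClosed_closure, (R.2.2.1.image _).closure, ?_⟩,
      ?_⟩
    · intro r hr s
      have h1 : r * s ∈ closure ((fun t => t * s) '' ((fun s => a * s) '' R.1)) :=
        image_closure_subset_closure_image (hright s) ⟨r, hr, rfl⟩
      refine closure_mono ?_ h1
      rintro _ ⟨_, ⟨t, ht, rfl⟩, rfl⟩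
      exact ⟨t * s, R.2.2.2 t ht s, (mul_assoc _ _ _).symm⟩
    · have hcl : IsClosed (A a '' f R) := ((hfc R).isCompact.image (hc a)).isClosed
      refine closure_minimal ?_ hcl
      rintro _ ⟨s, hs, rfl⟩
      have h1 : A s x ∈ closure ((fun s => A s x) '' ((fun s => a * s) '' R.1)) :=
        image_closure_subset_closure_image (horb x) ⟨s, hs, rfl⟩
      refine closure_minimal ?_ hcl h1
      rintro _ ⟨_, ⟨t, ht, rfl⟩, rfl⟩
      exact ⟨A t x, subset_closure ⟨t, ht, rfl⟩, (hmul _ _ _).symm⟩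
  refine ⟨⋂ R, f R, (iInter_subset _ hI.some).trans (hfK _), isClosed_iInter hfc,
    IsCompact.nonempty_iInter_of_directed_nonempty_isCompact_isClosed f hfd hfn
      (fun R => (hfc R).isCompact) hfc, fun a y hy => ?_⟩
  rw [mem_iInter] at hy
  have hZc : ∀ R, IsClosed (f R ∩ A a ⁻¹' {y}) := fun R =>
    (hfc R).inter (isClosed_singleton.preimage (hc a))
  obtain ⟨z, hz⟩ := IsCompact.nonempty_iInter_of_directed_nonempty_isCompact_isClosed
    (fun R => f R ∩ A a ⁻¹' {y}) (by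
      intro R R'
      obtain ⟨R'', h1, h2⟩ := hfd R R'
      exact ⟨R'', inter_subset_inter_left _ h1, inter_subset_inter_left _ h2⟩) (by
      intro R
      obtain ⟨R', hR'⟩ := hshift a R
      obtain ⟨z, hz, hzy⟩ := hR' (hy R')
      exact ⟨z, hz, hzy⟩) (fun R => (hZc R).isCompact) hZc
  rw [mem_iInter] at hz
  exact ⟨z, mem_iInter.2 fun R => (hz R).1, (hz hI.some).2⟩

omit [T2Space X] in
/-- If `e` is in the closure of `a S`, then `A e '' L` contains `A a '' L`. -/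
lemma image_subset_of_mem_closure (hmul : ∀ s t x, A (s * t) x = A s (A t x))
    (horb : ∀ x, Continuous fun s => A s x) {ρ : X → X → ℝ}
    (hsymm : ∀ x y, ρ x y = ρ y x) (h0 : ∀ x, ρ x x = 0)
    (htri : ∀ x y z, ρ x z ≤ ρ x y + ρ y z) (heq : ∀ x y, ρ x y ≤ 0 → x = y)
    (hρ : ∀ s x y, ρ (A s x) (A s y) ≤ ρ x y) (hball : ∀ x ε, IsClosed {y | ρ x y ≤ ε})
    {L : Set X} (hL : IsClosed L) (hLA : ∀ a, L ⊆ A a '' L) (hfin : ∀ ε, 0 < ε → Fin' ρ ε L)
    {a e : S} (he : e ∈ closure (range fun c : S => a * c)) : A a '' L ⊆ A e '' L := by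
  rintro _ ⟨x, hx, rfl⟩
  choose g hg hgx using fun c => hLA c hx
  have hne : (comap (fun c : S => a * c) (𝓝 e)).NeBot := by
    refine comap_neBot fun t ht => ?_
    obtain ⟨_, h1, ⟨c, rfl⟩⟩ := mem_closure_iff_nhds.1 he t ht
    exact ⟨c, h1⟩
  let U : Ultrafilter S := Ultrafilter.of (comap (fun c : S => a * c) (𝓝 e))
  have hU : Tendsto (fun c : S => a * c) U (𝓝 e) :=
    tendsto_comap.mono_left (Ultrafilter.of_le _)
  obtain ⟨x', hx'L, hx'⟩ := hL.isCompact.ultrafilter_le_nhds (U.map g)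
    (le_principal_iff.2 (mem_map.2 (univ_mem' hg)))
  refine ⟨x', hx'L, ?_⟩
  symm
  apply heq
  refine le_of_forall_pos_le_add fun δ hδ => ?_
  obtain ⟨P, -, hP⟩ := (hfin (δ / 2) (half_pos hδ)).net hsymm h0 (half_pos hδ)
  have h1 : (⋃ p ∈ P, {y | ρ p y ≤ δ / 2}) ∈ U.map g :=
    Filter.mem_of_superset (show L ∈ (U.map g : Filter X) from mem_map.2 (univ_mem' hg)) hP
  obtain ⟨p, hp, hpU⟩ := (Ultrafilter.finite_biUnion_mem_iff P.finite_toSet).1 h1
  have hpx' : x' ∈ {y | ρ p y ≤ δ / 2} :=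
    (hball p (δ / 2)).mem_of_tendsto (f := id) (b := (U.map g : Filter X)) hx' hpU
  have h2 : ∀ᶠ c in (U : Filter S), ρ (A a x) (A (a * c) x') ≤ δ := by
    have h3 : ∀ᶠ c in (U : Filter S), ρ p (g c) ≤ δ / 2 := hpU
    filter_upwards [h3] with c hc
    have h4 : A a x = A (a * c) (g c) := by rw [hmul, hgx]
    rw [h4]
    refine (hρ _ _ _).trans ((htri _ p _).trans ?_)
    rw [hsymm (g c) p]
    have h6 : ρ p x' ≤ δ / 2 := hpx'
    linarith
  have h5 : ρ (A a x) (A e x') ≤ δ :=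
    (hball (A a x) δ).mem_of_tendsto (((horb x').tendsto e).comp hU) h2
  linarith

/-- A minimal set of a left reversible semigroup of `ρ`-nonexpansive maps has finite `ε`-nets. -/
theorem net_of_minimal [Nonempty S] (hright : ∀ t : S, Continuous fun s : S => s * t)
    (hmul : ∀ s t x, A (s * t) x = A s (A t x))
    (hc : ∀ s, Continuous (A s)) (horb : ∀ x, Continuous fun s => A s x)
    (hS : LeftRev S) (hK : IsClosed K) (hne : K.Nonempty) (hinv : Inv A K)
    (hmin : ∀ L ⊆ K, IsClosed L → L.Nonempty → Inv A L → L = K) {ρ : X → X → ℝ}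
    (hsymm : ∀ x y, ρ x y = ρ y x) (h0 : ∀ x, ρ x x = 0)
    (htri : ∀ x y z, ρ x z ≤ ρ x y + ρ y z) (heq : ∀ x y, ρ x y ≤ 0 → x = y)
    (hρ : ∀ s x y, ρ (A s x) (A s y) ≤ ρ x y)
    (hball : ∀ x ε, IsClosed {y | ρ x y ≤ ε})
    (hfrag : ∀ ε : ℝ, 0 < ε → ∀ L : Set X, IsClosed L → L.Nonempty →
      ∃ U, IsOpen U ∧ (U ∩ L).Nonempty ∧ ∀ x ∈ U ∩ L, ∀ y ∈ U ∩ L, ρ x y ≤ ε)
    {ε : ℝ} (hε : 0 < ε) :
    ∃ P : Finset X, (P : Set X) ⊆ K ∧ K ⊆ ⋃ p ∈ P, {y | ρ p y ≤ ε} := by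
  classical
  obtain ⟨L₀, hL₀K, hL₀, hL₀ne, hL₀A⟩ := exists_back hright hmul hc horb hS hK hne hinv
  obtain ⟨L, hLL₀, hL, hLne, hLA, hLmin⟩ := exists_core hc hL₀ hL₀ne hL₀A
  have hLK : L ⊆ K := hLL₀.trans hL₀K
  have hLfin : ∀ ε, 0 < ε → Fin' ρ ε L := fun ε hε =>
    fin'_core hc hρ (hfrag ε hε) hL hLne hLA hLmin
  obtain ⟨n, hn⟩ := hLfin ε hε
  -- the union of the translates of the core
  set Ω : Set X := ⋃ a, A a '' L with hΩ
  have hΩK : Ω ⊆ K := by
    refine iUnion_subset fun a => ?_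
    rintro _ ⟨x, hx, rfl⟩
    exact hinv a x (hLK hx)
  have hdir : ∀ a b, ∃ e, A a '' L ⊆ A e '' L ∧ A b '' L ⊆ A e '' L := by
    intro a b
    obtain ⟨e, he1, he2⟩ := hS a b
    exact ⟨e, image_subset_of_mem_closure hmul horb hsymm h0 htri heq hρ hball hL hLA hLfin he1,
      image_subset_of_mem_closure hmul horb hsymm h0 htri heq hρ hball hL hLA hLfin he2⟩
  have hfin : ∀ P : Finset X, (P : Set X) ⊆ Ω → ∃ a, (P : Set X) ⊆ A a '' L := by
    intro P
    induction P using Finset.induction_on with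
    | empty => exact fun _ => ⟨Classical.arbitrary S, by simp⟩
    | insert x P hx ih =>
      intro hP
      rw [Finset.coe_insert, insert_subset_iff] at hP
      obtain ⟨a, ha⟩ := ih hP.2
      obtain ⟨b, hb⟩ := mem_iUnion.1 hP.1
      obtain ⟨e, h1, h2⟩ := hdir a b
      refine ⟨e, ?_⟩
      rw [Finset.coe_insert]
      exact insert_subset (h2 hb) (ha.trans h1)
  have hΩf : Fin' ρ ε Ω := by
    refine ⟨n, fun P hP hs => ?_⟩
    obtain ⟨a, ha⟩ := hfin P hP
    exact card_le_of_image (hρ a) hn P ha hs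
  obtain ⟨P, hPΩ, hP⟩ := hΩf.net hsymm h0 hε
  have hcl : closure Ω = K := by
    apply hmin
    · exact closure_minimal hΩK hK
    · exact isClosed_closure
    · obtain ⟨x, hx⟩ := hLne
      exact ⟨A (Classical.arbitrary S) x, subset_closure (mem_iUnion.2 ⟨_, x, hx, rfl⟩)⟩
    · intro t y hy
      have h2 : A t y ∈ closure (A t '' Ω) :=
        image_closure_subset_closure_image (hc t) ⟨y, hy, rfl⟩
      refine closure_mono ?_ h2
      rintro _ ⟨z, hz, rfl⟩
      obtain ⟨a, x, hx, rfl⟩ := mem_iUnion.1 hz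
      exact mem_iUnion.2 ⟨t * a, x, hx, hmul _ _ _⟩
  refine ⟨P, hPΩ.trans hΩK, ?_⟩
  rw [← hcl]
  refine closure_minimal hP ?_
  exact P.finite_toSet.isClosed_biUnion fun p _ => hball p ε

end Pool.Agent.H57.Rev
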